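import Pool.Agent.X260.QP.Qp2

set_option autoImplicit false

/-!
# MP_af48a1_al: the strong exchange condition for twisted involutions holds

For every Coxeter system `(W, S)` (of arbitrary rank) and every `W`-conjugacy class `K` of twisted
involutions in `W⁺ = W ⋊ Aut(W, S)` with `ℓ(rwr) = ℓ(w) → rwr = w` for all reflections `r` and all
`w ∈ K`, one has `ℓ(rwr) < ℓ(w) → rwr < w` in the Bruhat order, for all reflections `r`, `w ∈ K`.
-/

namespace Pool.Agent.Results.MP_af48a1_al.StrongExchange

open Pool.Agent.X260.QP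

theorem result {B : Type*} {M : CoxeterMatrix B} {W : Type*} [Group W] (cs : CoxeterSystem M W)
    (K : Set (WPlus cs)) (hclass : IsWClass cs K) (hinv : K ⊆ IPlus cs)
    (h : ∀ r : W, cs.IsReflection r → ∀ w ∈ K,
      lenP cs (inc r * w * inc r) = lenP cs w → inc r * w * inc r = w) :
    ∀ r : W, cs.IsReflection r → ∀ w ∈ K,
      lenP cs (inc r * w * inc r) < lenP cs w → BrLtP cs (inc r * w * inc r) w := by
  intro r hr w hw hlt
  refine ⟨strong_exchange_gen K (class_closed hclass) h hw (hinv hw) hr hlt, ?_⟩
  intro e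
  rw [e] at hlt
  exact lt_irrefl _ hlt

end Pool.Agent.Results.MP_af48a1_al.StrongExchange
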